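import Pool.Agent.R305.FM.F6

set_option autoImplicit false

/-! # A lower bound for the mean square discrepancy of the Farey sequence of every order -/

namespace Pool.Agent.U463.FS

open MeasureTheory Filter Topology Set
open H353.FB
open Pool.Agent.W120.WM (ZC NT)
open Pool.Agent.R305.FM

noncomputable section

/-- `∑ 1/d²` -/
def Z2 : ℝ := ∑' d : ℕ, 1 / (d : ℝ) ^ 2

lemma Z2_summable : Summable fun d : ℕ => 1 / (d : ℝ) ^ 2 := Real.summable_one_div_nat_pow.2 (by norm_num)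

/-- `∑_{g ≤ N} wt g` -/
def SW (N : ℕ) : ℝ := ∑ g ∈ Finset.Icc 1 N, wt g

lemma SW_eq (N : ℕ) : SW N = ∑' d : ℕ, mu d / (d : ℝ) ^ 2 * ((N / d : ℕ) : ℝ) := by
  have h1 : SW N = ∑ g ∈ Finset.Icc 1 N, ∑ d ∈ g.divisors, (fun d _ : ℕ => mu d / (d : ℝ) ^ 2) d (g / d) := rfl
  rw [h1, sum_divisors_swap N (fun d _ : ℕ => mu d / (d : ℝ) ^ 2)]
  rw [tsum_eq_sum (s := Finset.Icc 1 N)]
  · refine Finset.sum_congr rfl fun d _ => ?_
    simp only [Finset.sum_const, Nat.card_Icc, Nat.add_sub_cancel, nsmul_eq_mul]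
    ring
  · intro d hd
    rcases Nat.eq_zero_or_pos d with h0 | h0
    · subst h0
      simp
    · have h2 : N < d := by
        by_contra h
        exact hd (Finset.mem_Icc.2 ⟨h0, by omega⟩)
      rw [Nat.div_eq_of_lt h2]
      simp

lemma div_near (N d : ℕ) (hd : 0 < d) : |((N / d : ℕ) : ℝ) - (N : ℝ) / d| ≤ 1 := by
  have hd0 : (0 : ℝ) < d := by exact_mod_cast hd
  rw [abs_sub_comm, abs_le]
  have h1 : ((N / d : ℕ) : ℝ) ≤ (N : ℝ) / d := Nat.cast_div_le
  have h2 : (N : ℝ) / d < ((N / d : ℕ) : ℝ) + 1 := by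
    rw [div_lt_iff₀ hd0]
    have := Nat.lt_succ_iff.2 (le_refl (N / d))
    have h3 : N < (N / d + 1) * d := by
      have := Nat.lt_mul_div_succ N hd
      nlinarith
    exact_mod_cast h3
  constructor <;> linarith

lemma SW_near (N : ℕ) : |SW N - mu3 * N| ≤ Z2 := by
  have hs1 : Summable fun d : ℕ => mu d / (d : ℝ) ^ 3 := by
    refine Summable.of_norm_bounded mu3_summable fun d => ?_
    rw [Real.norm_eq_abs, abs_div, abs_of_nonneg (by positivity : (0:ℝ) ≤ (d:ℝ) ^ 3)]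
    gcongr
    exact abs_mu_le d
  have hs2 : Summable fun d : ℕ => mu d / (d : ℝ) ^ 2 * ((N / d : ℕ) : ℝ) := by
    apply summable_of_ne_finset_zero (s := Finset.Icc 1 N)
    intro d hd
    rcases Nat.eq_zero_or_pos d with h0 | h0
    · subst h0
      simp
    · have h2 : N < d := by
        by_contra h
        exact hd (Finset.mem_Icc.2 ⟨h0, by omega⟩)
      rw [Nat.div_eq_of_lt h2]
      simp
  have h1 : SW N - mu3 * N = ∑' d : ℕ, mu d / (d : ℝ) ^ 2 * (((N / d : ℕ) : ℝ) - (N : ℝ) / d) := by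
    rw [SW_eq, mu3, ← tsum_mul_right, ← hs2.tsum_sub (hs1.mul_right _)]
    refine tsum_congr fun d => ?_
    rcases Nat.eq_zero_or_pos d with h0 | h0
    · subst h0
      simp
    · have : (d : ℝ) ≠ 0 := by exact_mod_cast h0.ne'
      field_simp
  have hb : ∀ d : ℕ, ‖mu d / (d : ℝ) ^ 2 * (((N / d : ℕ) : ℝ) - (N : ℝ) / d)‖ ≤ 1 / (d : ℝ) ^ 2 := by
    intro d
    rcases Nat.eq_zero_or_pos d with h0 | h0
    · subst h0
      simp
    · rw [norm_mul, Real.norm_eq_abs, Real.norm_eq_abs, abs_div, abs_of_nonneg (by positivity : (0:ℝ) ≤ (d:ℝ) ^ 2)]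
      have h2 := abs_mu_le d
      have h3 := div_near N d h0
      calc |mu d| / (d : ℝ) ^ 2 * |((N / d : ℕ) : ℝ) - (N : ℝ) / d| ≤ 1 / (d : ℝ) ^ 2 * 1 := by gcongr
        _ = _ := mul_one _
  rw [h1, ← Real.norm_eq_abs]
  exact tsum_of_norm_bounded Z2_summable.hasSum hb

/-- the constant of the error term -/
def CC : ℝ := Z2 + mu3

lemma CC_pos : 0 < CC := by
  have := mu3_pos
  have : 0 ≤ Z2 := tsum_nonneg fun d => by positivity
  unfold CC
  linarith

lemma SW_div (n Y : ℕ) (hY : 0 < Y) : |SW (n / Y) - mu3 * ((n : ℝ) / Y)| ≤ CC := by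
  have h1 := SW_near (n / Y)
  have h2 := div_near n Y hY
  have h3 := mu3_pos
  have h4 : SW (n / Y) - mu3 * ((n : ℝ) / Y) = (SW (n / Y) - mu3 * ((n / Y : ℕ) : ℝ)) +
      mu3 * (((n / Y : ℕ) : ℝ) - (n : ℝ) / Y) := by ring
  rw [h4]
  refine (abs_add_le _ _).trans ?_
  rw [abs_mul, abs_of_pos h3]
  unfold CC
  nlinarith

lemma fiber_eq (n Y : ℕ) (hY : 0 < Y) :
    (Finset.Icc 1 n).filter (fun g => n / g = Y) = Finset.Icc 1 (n / Y) \ Finset.Icc 1 (n / (Y + 1)) := by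
  ext g
  simp only [Finset.mem_filter, Finset.mem_Icc, Finset.mem_sdiff, not_and, not_le]
  constructor
  · rintro ⟨⟨h1, h2⟩, h3⟩
    have h4 : Y ≤ n / g := h3.ge
    have h5 : ¬ (Y + 1 ≤ n / g) := by omega
    rw [Nat.le_div_iff_mul_le h1] at h4 h5
    refine ⟨⟨h1, ?_⟩, fun _ => ?_⟩
    · rw [Nat.le_div_iff_mul_le hY, mul_comm]
      exact h4
    · by_contra h
      push Not at h
      rw [Nat.le_div_iff_mul_le (by omega), mul_comm] at h
      exact h5 h
  · rintro ⟨⟨h1, h2⟩, h3⟩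
    have h3 := h3 h1
    rw [Nat.le_div_iff_mul_le hY, mul_comm] at h2
    have h5 : ¬ (Y + 1 ≤ n / g) := by
      rw [Nat.le_div_iff_mul_le h1]
      intro h
      have : g ≤ n / (Y + 1) := by
        rw [Nat.le_div_iff_mul_le (by omega), mul_comm]
        exact h
      omega
    have h4 : Y ≤ n / g := by
      rw [Nat.le_div_iff_mul_le h1]
      exact h2
    refine ⟨⟨h1, ?_⟩, by omega⟩
    exact (Nat.le_mul_of_pos_left g hY).trans h2

lemma fiber_sum (n Y : ℕ) (hY : 0 < Y) :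
    mu3 * ((n : ℝ) / (Y * (Y + 1))) - 2 * CC ≤ ∑ g ∈ (Finset.Icc 1 n).filter (fun g => n / g = Y), wt g := by
  have hsub : Finset.Icc 1 (n / (Y + 1)) ⊆ Finset.Icc 1 (n / Y) :=
    Finset.Icc_subset_Icc_right (Nat.div_le_div_left (by omega) hY)
  rw [fiber_eq n Y hY, Finset.sum_sdiff_eq_sub hsub]
  have h1 := abs_le.1 (SW_div n Y hY)
  have h2 := abs_le.1 (SW_div n (Y + 1) (by omega))
  unfold SW at h1 h2
  have hY0 : (0 : ℝ) < Y := by exact_mod_cast hY
  have h3 : (n : ℝ) / (Y * (Y + 1)) = (n : ℝ) / Y - (n : ℝ) / ((Y + 1 : ℕ) : ℝ) := by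
    push_cast
    field_simp
    ring
  rw [h3, mul_sub]
  linarith [h1.1, h2.2]

lemma HH_nat (n g : ℕ) : HH ((n : ℝ) / g) = HH ((n / g : ℕ) : ℝ) := by
  have h1 := HH_floor ((n : ℝ) / g) 1
  rw [Nat.floor_div_natCast, Nat.floor_natCast] at h1
  simpa using h1.symm

/-- the exact formula gives a lower bound for each order -/
lemma DD_low {n Y0 : ℕ} {ε : ℝ} (hn : 1 ≤ n) (h : 2 * CC * ((Y0 : ℝ) * (Y0 + 1)) ≤ ε * n) :
    (n : ℝ) / 12 * ((mu3 - ε) * ∑ Y ∈ Finset.Icc 1 Y0, HH (Y : ℝ) ^ 2 / ((Y : ℝ) * (Y + 1))) ≤ DD n := by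
  have hn0 : (0 : ℝ) < n := by exact_mod_cast hn
  rw [DD_eq hn]
  have h1 : ∑ Y ∈ Finset.Icc 1 Y0, ∑ g ∈ (Finset.Icc 1 n).filter (fun g => n / g = Y), wt g * HH ((n : ℝ) / g) ^ 2 ≤
      ∑ g ∈ Finset.Icc 1 n, wt g * HH ((n : ℝ) / g) ^ 2 := by
    have h2 : ∑ Y ∈ Finset.Icc 1 Y0, ∑ g ∈ (Finset.Icc 1 n).filter (fun g => n / g = Y),
        wt g * HH ((n : ℝ) / g) ^ 2 =
        ∑ g ∈ (Finset.Icc 1 n).filter (fun g => n / g ∈ Finset.Icc 1 Y0), wt g * HH ((n : ℝ) / g) ^ 2 := by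
      rw [← Finset.sum_fiberwise_of_maps_to (s := (Finset.Icc 1 n).filter (fun g => n / g ∈ Finset.Icc 1 Y0))
        (t := Finset.Icc 1 Y0) (g := fun g => n / g) (fun g hg => (Finset.mem_filter.1 hg).2)]
      refine Finset.sum_congr rfl fun Y hY => ?_
      refine Finset.sum_congr ?_ fun _ _ => rfl
      ext g
      simp only [Finset.mem_filter]
      constructor
      · rintro ⟨a, b⟩
        exact ⟨⟨a, b ▸ hY⟩, b⟩
      · rintro ⟨⟨a, _⟩, b⟩
        exact ⟨a, b⟩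
    rw [h2]
    refine Finset.sum_le_sum_of_subset_of_nonneg (Finset.filter_subset _ _) fun g hg _ => ?_
    exact mul_nonneg (wt_mem (Finset.mem_Icc.1 hg).1).1 (sq_nonneg _)
  have h3 : (n : ℝ) * ((mu3 - ε) * ∑ Y ∈ Finset.Icc 1 Y0, HH (Y : ℝ) ^ 2 / ((Y : ℝ) * (Y + 1))) ≤
      ∑ Y ∈ Finset.Icc 1 Y0, ∑ g ∈ (Finset.Icc 1 n).filter (fun g => n / g = Y), wt g * HH ((n : ℝ) / g) ^ 2 := by
    rw [Finset.mul_sum, Finset.mul_sum]
    refine Finset.sum_le_sum fun Y hY => ?_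
    rw [Finset.mem_Icc] at hY
    have hY0 : (0 : ℝ) < Y := by exact_mod_cast hY.1
    have h4 : ∑ g ∈ (Finset.Icc 1 n).filter (fun g => n / g = Y), wt g * HH ((n : ℝ) / g) ^ 2 =
        (∑ g ∈ (Finset.Icc 1 n).filter (fun g => n / g = Y), wt g) * HH (Y : ℝ) ^ 2 := by
      rw [Finset.sum_mul]
      refine Finset.sum_congr rfl fun g hg => ?_
      rw [HH_nat, (Finset.mem_filter.1 hg).2]
    rw [h4]
    have h5 := fiber_sum n Y hY.1
    have h6 : (mu3 - ε) * ((n : ℝ) / (Y * (Y + 1))) ≤ mu3 * ((n : ℝ) / (Y * (Y + 1))) - 2 * CC := by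
      have h7 : 2 * CC * ((Y : ℝ) * (Y + 1)) ≤ ε * n := by
        have h8 : (Y : ℝ) * (Y + 1) ≤ (Y0 : ℝ) * (Y0 + 1) := by
          have : (Y : ℝ) ≤ Y0 := by exact_mod_cast hY.2
          gcongr
        have := CC_pos
        nlinarith
      have h9 : 2 * CC ≤ ε * ((n : ℝ) / (Y * (Y + 1))) := by
        rw [mul_div_assoc', le_div_iff₀ (by positivity)]
        exact h7
      linarith
    have h10 : 0 ≤ HH (Y : ℝ) ^ 2 := sq_nonneg _
    have e : (n : ℝ) * ((mu3 - ε) * (HH (Y : ℝ) ^ 2 / ((Y : ℝ) * (Y + 1)))) =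
        (mu3 - ε) * ((n : ℝ) / (Y * (Y + 1))) * HH (Y : ℝ) ^ 2 := by
      field_simp
    rw [e]
    exact mul_le_mul_of_nonneg_right (h6.trans h5) h10
  have h11 : (n : ℝ) / 12 * ((mu3 - ε) * ∑ Y ∈ Finset.Icc 1 Y0, HH (Y : ℝ) ^ 2 / ((Y : ℝ) * (Y + 1))) =
      1 / 12 * ((n : ℝ) * ((mu3 - ε) * ∑ Y ∈ Finset.Icc 1 Y0, HH (Y : ℝ) ^ 2 / ((Y : ℝ) * (Y + 1)))) := by ring
  rw [h11]
  linarith

lemma HH_on {k : ℕ} {u : ℝ} (h1 : (k : ℝ) ≤ u) (h2 : u < k + 1) : HH u = HH (k : ℝ) := by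
  have h3 : ⌊u⌋₊ = k := (Nat.floor_eq_iff ((Nat.cast_nonneg k).trans h1)).2 ⟨h1, h2⟩
  have h4 := HH_floor u 1
  rw [h3] at h4
  simpa using h4.symm

lemma sq_int (k : ℕ) (hk : 1 ≤ k) : IntervalIntegrable (fun u : ℝ => HH u ^ 2 / u ^ 2) volume (k : ℝ) ((k : ℝ) + 1) ∧
    ∫ u in (k : ℝ)..((k : ℝ) + 1), HH u ^ 2 / u ^ 2 = HH (k : ℝ) ^ 2 / ((k : ℝ) * (k + 1)) := by
  have hk0 : (0 : ℝ) < k := by exact_mod_cast hk
  have hle : (k : ℝ) ≤ (k : ℝ) + 1 := by linarith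
  have hc : ContinuousOn (fun u : ℝ => HH (k : ℝ) ^ 2 / u ^ 2) (uIcc (k : ℝ) ((k : ℝ) + 1)) := by
    rw [uIcc_of_le hle]
    refine ContinuousOn.div continuousOn_const (by fun_prop) fun u hu => ?_
    have : 0 < u := hk0.trans_le hu.1
    positivity
  have heq : ∀ u ∈ Ioo (k : ℝ) ((k : ℝ) + 1), HH u ^ 2 / u ^ 2 = HH (k : ℝ) ^ 2 / u ^ 2 := by
    intro u hu
    rw [HH_on hu.1.le hu.2]
  constructor
  · rw [intervalIntegrable_iff_integrableOn_Ioo_of_le hle]
    have h1 := hc.intervalIntegrable (μ := volume)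
    rw [intervalIntegrable_iff_integrableOn_Ioo_of_le hle] at h1
    exact h1.congr_fun (fun u hu => (heq u hu).symm) measurableSet_Ioo
  · rw [intervalIntegral.integral_of_le hle, integral_Ioc_eq_integral_Ioo,
      setIntegral_congr_fun measurableSet_Ioo heq, ← integral_Ioc_eq_integral_Ioo,
      ← intervalIntegral.integral_of_le hle]
    have hd : ∀ u ∈ uIcc (k : ℝ) ((k : ℝ) + 1), HasDerivAt (fun u : ℝ => -(HH (k : ℝ) ^ 2) / u)
        (HH (k : ℝ) ^ 2 / u ^ 2) u := by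
      intro u hu
      rw [uIcc_of_le hle] at hu
      have hu0 : u ≠ 0 := (hk0.trans_le hu.1).ne'
      have h2 := (hasDerivAt_inv hu0).const_mul (-(HH (k : ℝ) ^ 2))
      refine (h2.congr_deriv ?_)
      field_simp
    rw [intervalIntegral.integral_eq_sub_of_hasDerivAt hd hc.intervalIntegrable]
    field_simp
    ring

lemma IH_log {m : ℕ} : IH (Real.log ((m : ℝ) + 1)) = ∑ Y ∈ Finset.Icc 1 m, HH (Y : ℝ) ^ 2 / ((Y : ℝ) * (Y + 1)) := by
  have h1 : (1 : ℝ) ≤ (m : ℝ) + 1 := by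
    have : (0 : ℝ) ≤ m := Nat.cast_nonneg m
    linarith
  have h2 : IH (Real.log ((m : ℝ) + 1)) = ∫ u in (1 : ℝ)..((m : ℝ) + 1), HH u ^ 2 / u ^ 2 := by
    rw [subst_exp _ h1]
    unfold IH
    apply intervalIntegral.integral_congr
    intro v _
    simp only
    rw [norm_hC_sq, Real.exp_neg]
    field_simp
  rw [h2]
  have h3 := intervalIntegral.sum_integral_adjacent_intervals (f := fun u : ℝ => HH u ^ 2 / u ^ 2)
    (μ := volume) (a := fun k : ℕ => (k : ℝ) + 1) (n := m) (fun k _ => by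
      have := (sq_int (k + 1) (by omega)).1
      push_cast at this ⊢
      exact this)
  simp only [Nat.cast_zero, zero_add] at h3
  have e : ∀ (f : ℕ → ℝ) (m : ℕ), ∑ Y ∈ Finset.Icc 1 m, f Y = ∑ k ∈ Finset.range m, f (k + 1) := by
    intro f m
    induction m with
    | zero => simp
    | succ m ih => rw [Finset.sum_Icc_succ_top (by omega), Finset.sum_range_succ, ih]
  rw [← h3, e]
  refine Finset.sum_congr rfl fun k _ => ?_
  have := (sq_int (k + 1) (by omega)).2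
  push_cast at this ⊢
  exact this

/-- the mean square of `H` tends to infinity if the weak Mertens hypothesis fails -/
lemma IH_top (hZ : ¬ ZC) : Tendsto (fun V : ℝ => IH V / V) atTop atTop := by
  have h0 : Tendsto (fun V : ℝ => (∫ v in (0:ℝ)..V, ‖fC v‖ ^ 2) / V) atTop atTop := by
    have h1 := (Pool.Agent.W120.WM.final3 1 one_pos le_rfl).2 hZ
    have h2 := h1.comp Real.tendsto_exp_atTop
    refine h2.congr' ?_
    filter_upwards [eventually_gt_atTop (0:ℝ)] with V hV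
    simp only [Function.comp]
    rw [Real.log_exp, sub_self, Real.rpow_zero]
    congr 1
    unfold Pool.Agent.W120.WM.msq
    rw [subst_exp _ (Real.one_le_exp hV.le), Real.log_exp]
    apply intervalIntegral.integral_congr
    intro v _
    simp only
    rw [norm_fC_sq]
    have e1 : (∑ n ∈ Finset.Icc 1 ⌊Real.exp v⌋₊, ((ArithmeticFunction.moebius n : ℤ) : ℝ)) =
        Mx (Real.exp v) := rfl
    rw [e1, Real.exp_neg]
    field_simp
  have hK : 0 < KK ^ 2 := by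
    have : 0 < KK := am_summable.tsum_pos am_nonneg 1 (by unfold am; norm_num)
    positivity
  have h2 := h0.atTop_div_const hK
  refine tendsto_atTop_mono' atTop ?_ h2
  filter_upwards [eventually_gt_atTop (0:ℝ)] with V hV
  have := f_le_h hV.le
  unfold IH
  rw [div_div, div_le_div_iff₀ (by positivity) hV]
  nlinarith

/-- the shifted logarithmic length -/
def VV (c : ℝ) (n : ℕ) : ℝ := Real.log n / 2 - c

/-- a lower bound with a fixed proportion of the scale -/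
lemma DD_low2 {ε : ℝ} (hε : 0 < ε) (hε2 : ε ≤ mu3) : ∃ c : ℝ, ∀ᶠ n : ℕ in atTop,
    (n : ℝ) / 12 * ((mu3 - ε) * IH (VV c n)) ≤ DD n := by
  obtain ⟨δ, hδ⟩ : ∃ δ : ℝ, δ = ε / (2 * CC) := ⟨_, rfl⟩
  have hCC := CC_pos
  have hδ0 : 0 < δ := by rw [hδ]; positivity
  refine ⟨Real.log 2 - Real.log δ / 2, ?_⟩
  have ht : Tendsto (fun n : ℕ => VV (Real.log 2 - Real.log δ / 2) n) atTop atTop := by
    unfold VV
    apply tendsto_atTop_add_const_right
    exact (Real.tendsto_log_atTop.comp tendsto_natCast_atTop_atTop).atTop_div_const (by norm_num)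
  filter_upwards [ht.eventually_ge_atTop 0, eventually_ge_atTop 1] with n hV hn
  have hn0 : (0 : ℝ) < n := by exact_mod_cast hn
  have hsq : 0 < δ * n := by positivity
  -- the scale
  have hlog : VV (Real.log 2 - Real.log δ / 2) n = Real.log (√(δ * n) / 2) := by
    unfold VV
    rw [Real.log_div (Real.sqrt_pos.2 hsq).ne' two_ne_zero, Real.log_sqrt hsq.le, Real.log_mul hδ0.ne' hn0.ne']
    ring
  have h1 : 1 ≤ √(δ * n) / 2 := by
    rw [hlog] at hV
    by_contra h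
    push Not at h
    have : Real.log (√(δ * n) / 2) < 0 := Real.log_neg (by positivity) h
    linarith
  obtain ⟨Y1, hY1⟩ : ∃ Y1 : ℕ, Y1 = ⌊√(δ * n)⌋₊ := ⟨_, rfl⟩
  have h2 : (Y1 : ℝ) ≤ √(δ * n) := by
    rw [hY1]
    exact Nat.floor_le (Real.sqrt_nonneg _)
  have h3 : √(δ * n) < (Y1 : ℝ) + 1 := by
    rw [hY1]
    exact Nat.lt_floor_add_one _
  have h4 : 2 ≤ Y1 := by
    have : (1 : ℝ) < Y1 := by linarith
    have : 1 < Y1 := by exact_mod_cast this
    omega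
  obtain ⟨Y0, rfl⟩ : ∃ Y0, Y1 = Y0 + 1 := ⟨Y1 - 1, by omega⟩
  push_cast at h2 h3
  have h5 : 2 * CC * ((Y0 : ℝ) * (Y0 + 1)) ≤ ε * n := by
    have h6 : ((Y0 : ℝ) + 1) ^ 2 ≤ δ * n := by
      have := pow_le_pow_left₀ (by positivity) h2 2
      rwa [Real.sq_sqrt hsq.le] at this
    have h7 : (Y0 : ℝ) * (Y0 + 1) ≤ ((Y0 : ℝ) + 1) ^ 2 := by
      have : (0 : ℝ) ≤ Y0 := Nat.cast_nonneg _
      nlinarith
    have h8 : 2 * CC * (δ * n) = ε * n := by
      rw [hδ]
      field_simp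
    have h9 : 2 * CC * ((Y0 : ℝ) * (Y0 + 1)) ≤ 2 * CC * (δ * n) := by
      have := h7.trans h6
      gcongr
    linarith
  have h10 := DD_low hn h5
  rw [← IH_log] at h10
  refine le_trans ?_ h10
  have h11 : IH (VV (Real.log 2 - Real.log δ / 2) n) ≤ IH (Real.log ((Y0 : ℝ) + 1)) := by
    apply IH_mono _ _ hV
    rw [hlog]
    apply Real.log_le_log (by positivity)
    linarith
  have h12 : 0 ≤ mu3 - ε := by linarith
  gcongr

lemma VV_ratio (c : ℝ) : Tendsto (fun n : ℕ => VV c n / Real.log n) atTop (𝓝 (1 / 2)) := by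
  have hl : Tendsto (fun n : ℕ => Real.log (n : ℝ)) atTop atTop :=
    Real.tendsto_log_atTop.comp tendsto_natCast_atTop_atTop
  have h1 : Tendsto (fun n : ℕ => 1 / 2 - c / Real.log n) atTop (𝓝 (1 / 2)) := by
    have := (tendsto_const_nhds (x := c)).div_atTop hl
    have := this.const_sub (1 / 2)
    simpa using this
  refine h1.congr' ?_
  filter_upwards [hl.eventually_gt_atTop 0] with n hn
  unfold VV
  field_simp

lemma VV_top (c : ℝ) : Tendsto (VV c) atTop atTop := by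
  unfold VV
  apply tendsto_atTop_add_const_right
  exact (Real.tendsto_log_atTop.comp tendsto_natCast_atTop_atTop).atTop_div_const (by norm_num)

/-- under the weak Mertens hypothesis, for every order -/
theorem DD_liminf (hZ : ZC) {η : ℝ} (hη : 0 < η) :
    ∀ᶠ n : ℕ in atTop, SH * mu3 / 24 - η ≤ DD n / (n * Real.log n) := by
  have hS := SH_pos hZ
  have h3 := mu3_pos
  -- choose ε
  obtain ⟨ε, hε, hε2, hε3⟩ : ∃ ε : ℝ, 0 < ε ∧ ε ≤ mu3 ∧ SH * ε / 24 ≤ η / 2 := by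
    refine ⟨min mu3 (12 * η / SH), lt_min h3 (by positivity), min_le_left _ _, ?_⟩
    have : SH * min mu3 (12 * η / SH) ≤ SH * (12 * η / SH) := by
      gcongr
      exact min_le_right _ _
    have h4 : SH * (12 * η / SH) = 12 * η := by field_simp
    linarith
  obtain ⟨c, hc⟩ := DD_low2 hε hε2
  have h4 : Tendsto (fun n : ℕ => (mu3 - ε) / 12 * (IH (VV c n) / VV c n * (VV c n / Real.log n))) atTop
      (𝓝 ((mu3 - ε) / 12 * (SH * (1 / 2)))) :=
    (((lim_h hZ).comp (VV_top c)).mul (VV_ratio c)).const_mul _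
  have h5 : SH * mu3 / 24 - η < (mu3 - ε) / 12 * (SH * (1 / 2)) := by
    have : (mu3 - ε) / 12 * (SH * (1 / 2)) = SH * mu3 / 24 - SH * ε / 24 := by ring
    linarith
  filter_upwards [hc, h4.eventually (lt_mem_nhds h5), (VV_top c).eventually_gt_atTop 0,
    eventually_ge_atTop 2] with n h6 h7 h8 h9
  have hn0 : (0 : ℝ) < n := by
    have : 0 < n := by omega
    exact_mod_cast this
  have hl : 0 < Real.log n := Real.log_pos (by exact_mod_cast (show 1 < n by omega))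
  rw [le_div_iff₀ (by positivity)]
  have h10 : (mu3 - ε) / 12 * (IH (VV c n) / VV c n * (VV c n / Real.log n)) * (n * Real.log n) =
      (n : ℝ) / 12 * ((mu3 - ε) * IH (VV c n)) := by
    field_simp
  have h11 : 0 < (n : ℝ) * Real.log n := by positivity
  nlinarith

/-- if the weak Mertens hypothesis fails, for every order -/
theorem DD_top (hZ : ¬ ZC) : Tendsto (fun n : ℕ => DD n / (n * Real.log n)) atTop atTop := by
  have h3 := mu3_pos
  obtain ⟨c, hc⟩ := DD_low2 (half_pos h3) (half_le_self h3.le)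
  have h4 : Tendsto (fun n : ℕ => (mu3 - mu3 / 2) / 12 * (IH (VV c n) / VV c n * (VV c n / Real.log n))) atTop
      atTop := by
    apply Tendsto.const_mul_atTop (by linarith)
    exact ((IH_top hZ).comp (VV_top c)).atTop_mul_pos (by norm_num : (0:ℝ) < 1 / 2) (VV_ratio c)
  refine tendsto_atTop_mono' atTop ?_ h4
  filter_upwards [hc, (VV_top c).eventually_gt_atTop 0, eventually_ge_atTop 2] with n h6 h8 h9
  have hn0 : (0 : ℝ) < n := by
    have : 0 < n := by omega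
    exact_mod_cast this
  have hl : 0 < Real.log n := Real.log_pos (by exact_mod_cast (show 1 < n by omega))
  rw [le_div_iff₀ (by positivity)]
  have h10 : (mu3 - mu3 / 2) / 12 * (IH (VV c n) / VV c n * (VV c n / Real.log n)) * (n * Real.log n) =
      (n : ℝ) / 12 * ((mu3 - mu3 / 2) * IH (VV c n)) := by
    field_simp
  rw [h10]
  exact h6

end

end Pool.Agent.U463.FS
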