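import Pool.Agent.U463.FS.Id
import Pool.Agent.U463.FS.Low

set_option autoImplicit false

/-! # The number of Farey fractions -/

namespace Pool.Agent.U463.FS

open MeasureTheory Filter Topology Set
open H353.FB (mu abs_mu_le)
open Pool.Agent.H295R2 (farey sum_farey_moebius)

noncomputable section

lemma card_eq (n : ℕ) : ((farey n).card : ℝ) =
    ∑' e : ℕ, mu e * (((n / e : ℕ) : ℝ) * (((n / e : ℕ) : ℝ) + 1) / 2) := by
  have h1 := sum_farey_moebius n (fun _ => 1)
  rw [Finset.sum_const, nsmul_eq_mul, mul_one] at h1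
  rw [h1, tsum_eq_sum (s := Finset.Icc 1 n)]
  · refine Finset.sum_congr rfl fun e _ => ?_
    have h2 : ∀ m : ℕ, ∑ d ∈ Finset.Icc 1 m, ∑ _h ∈ Finset.Icc 1 d, (1 : ℝ) = (m : ℝ) * (m + 1) / 2 := by
      intro m
      induction m with
      | zero => simp
      | succ m ih =>
        rw [Finset.sum_Icc_succ_top (by omega), ih]
        simp
        ring
    rw [h2]
    rfl
  · intro d hd
    rcases Nat.eq_zero_or_pos d with h0 | h0
    · subst h0
      simp
    · have h2 : n < d := by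
        by_contra h
        exact hd (Finset.mem_Icc.2 ⟨h0, by omega⟩)
      rw [Nat.div_eq_of_lt h2]
      simp

/-- `∑ μ(d)/d²` -/
def mu2 : ℝ := ∑' d : ℕ, mu d / (d : ℝ) ^ 2

lemma mu2_eq : mu2 = 6 / Real.pi ^ 2 := by
  have hs : 1 < (2 : ℂ).re := by norm_num
  have h1 := ArithmeticFunction.LSeries_zeta_mul_Lseries_moebius hs
  rw [ArithmeticFunction.LSeries_zeta_eq_riemannZeta hs, riemannZeta_two] at h1
  have h3 : LSeries (fun n => ((ArithmeticFunction.moebius n : ℤ) : ℂ)) 2 = ((mu2 : ℝ) : ℂ) := by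
    unfold LSeries mu2
    rw [Complex.ofReal_tsum]
    refine tsum_congr fun n => ?_
    rcases Nat.eq_zero_or_pos n with h0 | h0
    · subst h0
      simp [mu]
    · rw [LSeries.term_of_ne_zero (by omega)]
      unfold mu
      push_cast
      congr 1
      have : ((2 : ℕ) : ℂ) = 2 := by norm_num
      rw [← this, Complex.cpow_natCast]
  have h4 : ((Real.pi ^ 2 / 6 : ℝ) : ℂ) * ((mu2 : ℝ) : ℂ) = 1 := by
    rw [← h3]
    push_cast
    exact h1
  have h5 : (Real.pi ^ 2 / 6) * mu2 = 1 := by exact_mod_cast h4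
  have hpi := Real.pi_pos
  field_simp at h5 ⊢
  linarith

lemma ratio_lim (e : ℕ) (he : 0 < e) : Tendsto (fun n : ℕ => ((n / e : ℕ) : ℝ) / n) atTop (𝓝 (1 / e)) := by
  have h1 : Tendsto (fun n : ℕ => 1 / (n : ℝ)) atTop (𝓝 0) := tendsto_one_div_atTop_nhds_zero_nat
  rw [tendsto_iff_norm_sub_tendsto_zero]
  refine squeeze_zero' (Eventually.of_forall fun _ => norm_nonneg _) ?_ h1
  filter_upwards [eventually_gt_atTop 0] with n hn
  have hn0 : (0 : ℝ) < n := by exact_mod_cast hn
  have h2 := div_near n e he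
  have h3 : ((n / e : ℕ) : ℝ) / n - 1 / e = (((n / e : ℕ) : ℝ) - (n : ℝ) / e) / n := by
    have : (e : ℝ) ≠ 0 := by exact_mod_cast he.ne'
    field_simp
  rw [h3, norm_div, Real.norm_eq_abs, Real.norm_of_nonneg hn0.le]
  gcongr

/-- the number of Farey fractions -/
theorem card_lim : Tendsto (fun n : ℕ => ((farey n).card : ℝ) / (n : ℝ) ^ 2) atTop (𝓝 (3 / Real.pi ^ 2)) := by
  have h1 : Tendsto (fun n : ℕ => ∑' e : ℕ, mu e * (((n / e : ℕ) : ℝ) / n * (((n / e : ℕ) : ℝ) / n + 1 / n) / 2))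
      atTop (𝓝 (∑' e : ℕ, mu e * (1 / (e : ℝ) * (1 / (e : ℝ) + 0) / 2))) := by
    refine tendsto_tsum_of_dominated_convergence (bound := fun d : ℕ => 1 / (d : ℝ) ^ 2) Z2_summable ?_ ?_
    · intro e
      rcases Nat.eq_zero_or_pos e with h0 | h0
      · subst h0
        simp [mu]
      · refine Tendsto.const_mul _ (Tendsto.div_const ?_ _)
        exact (ratio_lim e h0).mul ((ratio_lim e h0).add tendsto_one_div_atTop_nhds_zero_nat)
    · filter_upwards [eventually_gt_atTop 0] with n hn e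
      have hn0 : (0 : ℝ) < n := by exact_mod_cast hn
      rcases Nat.eq_zero_or_pos e with h0 | h0
      · subst h0
        simp [mu]
      · have he0 : (0 : ℝ) < e := by exact_mod_cast h0
        rw [norm_mul, Real.norm_eq_abs]
        have h2 := abs_mu_le e
        have h3 : ((n / e : ℕ) : ℝ) / n * (((n / e : ℕ) : ℝ) / n + 1 / n) / 2 ≤ 1 / (e : ℝ) ^ 2 := by
          rcases Nat.eq_zero_or_pos (n / e) with h4 | h4
          · rw [h4]
            simp
          · have h5 : ((n / e : ℕ) : ℝ) / n ≤ 1 / e := by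
              rw [div_le_div_iff₀ hn0 he0, one_mul]
              exact_mod_cast Nat.div_mul_le_self n e
            have h6 : (1 : ℝ) / n ≤ ((n / e : ℕ) : ℝ) / n := by
              gcongr
              exact_mod_cast h4
            have h7 : (0:ℝ) ≤ ((n / e : ℕ) : ℝ) / n := by positivity
            calc ((n / e : ℕ) : ℝ) / n * (((n / e : ℕ) : ℝ) / n + 1 / n) / 2 ≤
                ((n / e : ℕ) : ℝ) / n * (((n / e : ℕ) : ℝ) / n + ((n / e : ℕ) : ℝ) / n) / 2 := by gcongr
              _ = (((n / e : ℕ) : ℝ) / n) ^ 2 := by ring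
              _ ≤ (1 / (e : ℝ)) ^ 2 := by gcongr
              _ = _ := by rw [div_pow, one_pow]
        rw [Real.norm_of_nonneg (by positivity)]
        calc |mu e| * (((n / e : ℕ) : ℝ) / n * (((n / e : ℕ) : ℝ) / n + 1 / n) / 2) ≤
            1 * (1 / (e : ℝ) ^ 2) := by gcongr
          _ = _ := one_mul _
  have h2 : ∑' e : ℕ, mu e * (1 / (e : ℝ) * (1 / (e : ℝ) + 0) / 2) = 3 / Real.pi ^ 2 := by
    have : ∑' e : ℕ, mu e * (1 / (e : ℝ) * (1 / (e : ℝ) + 0) / 2) = mu2 / 2 := by
      rw [mu2, ← tsum_div_const]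
      refine tsum_congr fun e => ?_
      rw [add_zero]
      ring
    rw [this, mu2_eq]
    ring
  rw [h2] at h1
  refine h1.congr' ?_
  filter_upwards [eventually_gt_atTop 0] with n hn
  have hn0 : (n : ℝ) ≠ 0 := by exact_mod_cast hn.ne'
  rw [card_eq, ← tsum_div_const]
  refine tsum_congr fun e => ?_
  field_simp

lemma card_pos {n : ℕ} (hn : 1 ≤ n) : (0 : ℝ) < ((farey n).card : ℝ) := by
  exact_mod_cast Pool.Agent.H295R2.t1_card_pos hn

lemma card_ratio : Tendsto (fun n : ℕ => (n : ℝ) ^ 2 / ((farey n).card : ℝ)) atTop (𝓝 (Real.pi ^ 2 / 3)) := by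
  have h1 := card_lim.inv₀ (by positivity)
  have h2 : (3 / Real.pi ^ 2)⁻¹ = Real.pi ^ 2 / 3 := by rw [inv_div]
  rw [h2] at h1
  refine h1.congr fun n => ?_
  rw [inv_div]

end

end Pool.Agent.U463.FS
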