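import Pool.Agent.R305.FM.F6
import Pool.Agent.H295R2.T1

set_option autoImplicit false

/-! # Franel's sum and the mean square discrepancy of the Farey sequence -/

namespace Pool.Agent.U463.FS

open MeasureTheory Filter Topology Set
open Pool.Agent.H295R2 (farey fareyNth disp gg gg_card gg_lt gg_nonneg gg_le_one gg_succ Ef Ef_sq_ii cnt cnt_sub
  cnt_on cube_integral t1_card_pos t1_card_eq t1_sum_one t1_sum_eq sum_farey_mertens Mx)
open Pool.Agent.R305.FM (DD)

noncomputable section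

/-- Franel's sum `∑_j (r_j - j / A)²` -/
def Fr (n : ℕ) : ℝ := ∑ j : Fin (farey n).card, (fareyNth n j - ((j : ℕ) + 1 : ℝ) / ((farey n).card : ℝ)) ^ 2

lemma Fr_nonneg (n : ℕ) : 0 ≤ Fr n := Finset.sum_nonneg fun _ _ => sq_nonneg _

lemma sum_farey_id {n : ℕ} (hn : 1 ≤ n) : ∑ x ∈ farey n, ((x : ℚ) : ℝ) = (((farey n).card : ℝ) + 1) / 2 := by
  rw [sum_farey_mertens n (fun x => ((x : ℚ) : ℝ)), t1_card_eq, add_div]
  have h0 := t1_sum_one hn
  have h1 : ∀ d ∈ Finset.Icc 1 n, Mx ((n : ℝ) / d) * ∑ h ∈ Finset.Icc 1 d, (((h : ℚ) / (d : ℚ) : ℚ) : ℝ) =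
      Mx ((n : ℝ) / d) * d / 2 + Mx ((n : ℝ) / d) / 2 := by
    intro d hd
    rw [Finset.mem_Icc] at hd
    have hd0 : (d : ℝ) ≠ 0 := by exact_mod_cast (show d ≠ 0 by omega)
    have h2 : ∑ h ∈ Finset.Icc 1 d, (((h : ℚ) / (d : ℚ) : ℚ) : ℝ) = ((d : ℝ) + 1) / 2 := by
      push_cast
      rw [← Finset.sum_div]
      have h3 : ∀ m : ℕ, ∑ h ∈ Finset.Icc 1 m, (h : ℝ) = (m : ℝ) * (m + 1) / 2 := by
        intro m
        induction m with
        | zero => simp
        | succ m ih =>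
          rw [Finset.sum_Icc_succ_top (by omega), ih]
          push_cast
          ring
      rw [h3]
      field_simp
    rw [h2]
    ring
  rw [Finset.sum_congr rfl h1, Finset.sum_add_distrib, ← Finset.sum_div, ← Finset.sum_div, h0]

lemma sum_nth {n : ℕ} (hn : 1 ≤ n) :
    ∑ j : Fin (farey n).card, fareyNth n j = (((farey n).card : ℝ) + 1) / 2 := by
  rw [← sum_farey_id hn, t1_sum_eq n (fun x => ((x : ℚ) : ℝ))]
  rfl

/-- the mean square discrepancy in terms of Franel's sum -/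
theorem DD_Fr {n : ℕ} (hn : 1 ≤ n) : DD n = ((farey n).card : ℝ) * Fr n + 1 / 3 := by
  have h00 : DD n = ∫ t in (0 : ℝ)..1, Ef n t ^ 2 := by
    unfold DD
    apply intervalIntegral.integral_congr
    intro t ht
    rw [uIcc_of_le zero_le_one] at ht
    show _ = Ef n t ^ 2
    rw [← cnt_sub hn ht.1 ht.2]
    rfl
  rw [h00]
  set A := (farey n).card with hA
  have hApos : 0 < A := t1_card_pos hn
  have hA0 : (0 : ℝ) < A := by exact_mod_cast hApos
  set u : ℕ → ℝ := fun j => A * gg n j - j with hu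
  have h1 : ∀ k < A, IntervalIntegrable (fun t => Ef n t ^ 2) volume (gg n k) (gg n (k + 1)) :=
    fun k _ => Ef_sq_ii n _ _
  have h2 := intervalIntegral.sum_integral_adjacent_intervals h1
  have hg0 : gg n 0 = 0 := rfl
  rw [hg0, gg_card hn] at h2
  have h3 : ∀ k ∈ Finset.range A, ∫ t in (gg n k)..(gg n (k + 1)), Ef n t ^ 2 =
      ((u (k + 1) + 1) ^ 3 - (u k) ^ 3) / (3 * A) := by
    intro k hk
    rw [Finset.mem_range] at hk
    have hlt := gg_lt hk
    have h4 : ∫ t in (gg n k)..(gg n (k + 1)), Ef n t ^ 2 =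
        ∫ t in (gg n k)..(gg n (k + 1)), ((k : ℝ) - A * t) ^ 2 := by
      rw [intervalIntegral.integral_of_le hlt.le, intervalIntegral.integral_of_le hlt.le,
        integral_Ioc_eq_integral_Ioo, integral_Ioc_eq_integral_Ioo]
      refine setIntegral_congr_fun measurableSet_Ioo fun t ht => ?_
      have ht0 : 0 ≤ t := gg_nonneg.trans ht.1.le
      have ht1 : t ≤ 1 := ht.2.le.trans gg_le_one
      rw [← cnt_sub hn ht0 ht1, cnt_on hk ht.1 ht.2]
    rw [h4, cube_integral _ _ _ _ hA0.ne']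
    simp only [hu]
    push_cast
    ring
  rw [Finset.sum_congr rfl h3] at h2
  have hu0 : u 0 = 0 := by simp [hu, hg0]
  have huA : u A = 0 := by simp [hu, gg_card hn, hA]
  have h5 : ∑ k ∈ Finset.range A, ((u (k + 1)) ^ 3 - (u k) ^ 3) = 0 := by
    rw [Finset.sum_range_sub (fun k => (u k) ^ 3) A, huA, hu0]; simp
  have h6 : ∑ k ∈ Finset.range A, ((u (k + 1) + 1) ^ 3 - (u k) ^ 3) / (3 * A) =
      (∑ k ∈ Finset.range A, (3 * (u (k + 1)) ^ 2 + 3 * u (k + 1) + 1)) / (3 * (A : ℝ)) := by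
    rw [← Finset.sum_div]
    congr 1
    have : ∑ k ∈ Finset.range A, ((u (k + 1) + 1) ^ 3 - (u k) ^ 3) =
        ∑ k ∈ Finset.range A, (3 * (u (k + 1)) ^ 2 + 3 * u (k + 1) + 1) +
        ∑ k ∈ Finset.range A, ((u (k + 1)) ^ 3 - (u k) ^ 3) := by
      rw [← Finset.sum_add_distrib]
      refine Finset.sum_congr rfl fun k _ => by ring
    rw [this, h5, add_zero]
  rw [h6] at h2
  rw [← h2]
  have e2 : ∀ i : Fin A, u ((i : ℕ) + 1) = A * fareyNth n i - ((i : ℕ) + 1) := by
    intro i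
    have hi : (i : ℕ) < (farey n).card := i.2
    simp only [hu]
    rw [gg_succ hi]
    push_cast
    rfl
  have h7 : ∑ k ∈ Finset.range A, u (k + 1) = 0 := by
    rw [Finset.sum_range, Finset.sum_congr rfl fun i _ => e2 i, Finset.sum_sub_distrib, ← Finset.mul_sum, sum_nth hn]
    have h8 : ∑ i : Fin A, (((i : ℕ) : ℝ) + 1) = (A : ℝ) * (A + 1) / 2 := by
      rw [← Finset.sum_range (fun k => ((k : ℝ) + 1))]
      have h3 : ∀ m : ℕ, ∑ k ∈ Finset.range m, ((k : ℝ) + 1) = (m : ℝ) * (m + 1) / 2 := by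
        intro m
        induction m with
        | zero => simp
        | succ m ih =>
          rw [Finset.sum_range_succ, ih]
          push_cast
          ring
      exact h3 A
    rw [h8]
    ring
  have h9 : ∑ k ∈ Finset.range A, (u (k + 1)) ^ 2 = (A : ℝ) ^ 2 * Fr n := by
    unfold Fr
    rw [Finset.sum_range, Finset.mul_sum]
    refine Finset.sum_congr rfl fun i _ => ?_
    rw [e2 i, ← mul_pow]
    congr 1
    have : ((farey n).card : ℝ) = (A : ℝ) := rfl
    rw [this]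
    field_simp
  rw [Finset.sum_add_distrib, Finset.sum_add_distrib, ← Finset.mul_sum, ← Finset.mul_sum, h7, h9]
  simp only [Finset.sum_const, Finset.card_range, nsmul_eq_mul, mul_one, mul_zero, add_zero]
  field_simp

end

end Pool.Agent.U463.FS
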