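import Pool.Agent.U463.FS.Card

set_option autoImplicit false

/-! # Franel's sum and the weak Mertens hypothesis -/

namespace Pool.Agent.U463.FS

open MeasureTheory Filter Topology Set
open Pool.Agent.H295R2 (farey)
open Pool.Agent.W120.WM (ZC NT)
open Pool.Agent.R305.FM (DD DD_eq FI SH mu3 lim_yes lim_no SH_pos mu3_pos wt_mem HH)

noncomputable section

/-- the constant `π² / (72 ζ(3)) ∑ |ζ(1+ρ)|² / |ρ ζ'(ρ)|²` -/
def κ : ℝ := Real.pi ^ 2 / 3 * (SH * mu3 / 24)

lemma κ_pos (hZ : ZC) : 0 < κ := by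
  have := SH_pos hZ
  have := mu3_pos
  unfold κ
  positivity

/-- the partial sums of Franel's sums -/
def BB (n : ℕ) : ℝ := ∑ m ∈ Finset.Icc 1 n, Fr m

lemma log_top : Tendsto (fun n : ℕ => Real.log (n : ℝ)) atTop atTop :=
  Real.tendsto_log_atTop.comp tendsto_natCast_atTop_atTop

lemma nlog_top : Tendsto (fun n : ℕ => (n : ℝ) * Real.log n) atTop atTop :=
  tendsto_natCast_atTop_atTop.atTop_mul_atTop₀ log_top

lemma Fr_eq {n : ℕ} (hn : 1 ≤ n) : Fr n = (DD n - 1 / 3) / ((farey n).card : ℝ) := by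
  rw [DD_Fr hn]
  have := card_pos hn
  field_simp
  ring

/-- the normalized Franel sum -/
def QQ (n : ℕ) : ℝ := n * Fr n / Real.log n

lemma QQ_eq : (fun n : ℕ => (DD n / (n * Real.log n) - 1 / 3 / (n * Real.log n)) *
    ((n : ℝ) ^ 2 / ((farey n).card : ℝ))) =ᶠ[atTop] QQ := by
  filter_upwards [eventually_ge_atTop 2] with n hn
  have hn0 : (0 : ℝ) < n := by
    have : 0 < n := by omega
    exact_mod_cast this
  have hl : 0 < Real.log n := Real.log_pos (by exact_mod_cast (show 1 < n by omega))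
  have hc := card_pos (show 1 ≤ n by omega)
  unfold QQ
  rw [Fr_eq (by omega)]
  field_simp

lemma small : Tendsto (fun n : ℕ => (1 / 3 : ℝ) / (n * Real.log n)) atTop (𝓝 0) :=
  tendsto_const_nhds.div_atTop nlog_top

theorem QQ_liminf (hZ : ZC) {η : ℝ} (hη : 0 < η) : ∀ᶠ n : ℕ in atTop, κ - η ≤ QQ n := by
  have hpi := Real.pi_pos
  obtain ⟨η1, h1, h2⟩ : ∃ η1 : ℝ, 0 < η1 ∧ Real.pi ^ 2 / 3 * η1 ≤ η / 2 := by
    refine ⟨3 * η / (2 * Real.pi ^ 2), by positivity, le_of_eq ?_⟩
    field_simp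
  have h3 := DD_liminf hZ h1
  have h4 : Tendsto (fun n : ℕ => (SH * mu3 / 24 - η1 - 1 / 3 / (n * Real.log n)) *
      ((n : ℝ) ^ 2 / ((farey n).card : ℝ))) atTop (𝓝 ((SH * mu3 / 24 - η1 - 0) * (Real.pi ^ 2 / 3))) :=
    (small.const_sub _).mul card_ratio
  have h5 : κ - η < (SH * mu3 / 24 - η1 - 0) * (Real.pi ^ 2 / 3) := by
    unfold κ
    linarith
  filter_upwards [QQ_eq, h3, h4.eventually (lt_mem_nhds h5), eventually_ge_atTop 1] with n h6 h7 h8 h9
  rw [← h6]
  refine h8.le.trans ?_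
  have hc := card_pos h9
  gcongr

theorem QQ_top (hZ : ¬ ZC) : Tendsto QQ atTop atTop := by
  refine Tendsto.congr' QQ_eq ?_
  have h1 : Tendsto (fun n : ℕ => DD n / (n * Real.log n) - 1 / 3 / (n * Real.log n)) atTop atTop := by
    have := (DD_top hZ).atTop_add (small.neg)
    simpa [sub_eq_add_neg] using this
  exact h1.atTop_mul_pos (by positivity) card_ratio

lemma DD_infty : Tendsto DD atTop atTop := by
  by_cases hZ : ZC
  · have hS := SH_pos hZ
    have h3 := mu3_pos
    have h1 := DD_liminf hZ (η := SH * mu3 / 48) (by positivity)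
    have h2 : Tendsto (fun n : ℕ => SH * mu3 / 48 * ((n : ℝ) * Real.log n)) atTop atTop :=
      nlog_top.const_mul_atTop (by positivity)
    refine tendsto_atTop_mono' atTop ?_ h2
    filter_upwards [h1, nlog_top.eventually_gt_atTop 0] with n h4 h5
    rw [le_div_iff₀ h5] at h4
    have : SH * mu3 / 24 - SH * mu3 / 48 = SH * mu3 / 48 := by ring
    rwa [this] at h4
  · have h1 := (DD_top hZ).eventually_ge_atTop 1
    refine tendsto_atTop_mono' atTop ?_ nlog_top
    filter_upwards [h1, nlog_top.eventually_gt_atTop 0] with n h4 h5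
    rw [le_div_iff₀ h5] at h4
    linarith

lemma DD_pos {n : ℕ} (hn : 1 ≤ n) : 0 < DD n := by
  rw [DD_eq hn]
  have : 0 ≤ ∑ g ∈ Finset.Icc 1 n, Pool.Agent.R305.FM.wt g * HH ((n : ℝ) / g) ^ 2 := by
    refine Finset.sum_nonneg fun g hg => ?_
    exact mul_nonneg (wt_mem (Finset.mem_Icc.1 hg).1).1 (sq_nonneg _)
  linarith

/-- the summands of the integral -/
def aa (m : ℕ) : ℝ := DD m / ((m : ℝ) * (m + 1))

lemma aa_pos {m : ℕ} (hm : 1 ≤ m) : 0 < aa m := by
  have := DD_pos hm
  have : (0 : ℝ) < m := by exact_mod_cast hm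
  unfold aa
  positivity

lemma dd_int (k : ℕ) (hk : 1 ≤ k) :
    IntervalIntegrable (fun u : ℝ => DD ⌊u⌋₊ / u ^ 2) volume (k : ℝ) ((k : ℝ) + 1) ∧
    ∫ u in (k : ℝ)..((k : ℝ) + 1), DD ⌊u⌋₊ / u ^ 2 = aa k := by
  have hk0 : (0 : ℝ) < k := by exact_mod_cast hk
  have hle : (k : ℝ) ≤ (k : ℝ) + 1 := by linarith
  have hc : ContinuousOn (fun u : ℝ => DD k / u ^ 2) (uIcc (k : ℝ) ((k : ℝ) + 1)) := by
    rw [uIcc_of_le hle]
    refine ContinuousOn.div continuousOn_const (by fun_prop) fun u hu => ?_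
    have : 0 < u := hk0.trans_le hu.1
    positivity
  have heq : ∀ u ∈ Ioo (k : ℝ) ((k : ℝ) + 1), DD ⌊u⌋₊ / u ^ 2 = DD k / u ^ 2 := by
    intro u hu
    have h3 : ⌊u⌋₊ = k := (Nat.floor_eq_iff ((Nat.cast_nonneg k).trans hu.1.le)).2 ⟨hu.1.le, hu.2⟩
    rw [h3]
  constructor
  · rw [intervalIntegrable_iff_integrableOn_Ioo_of_le hle]
    have h1 := hc.intervalIntegrable (μ := volume)
    rw [intervalIntegrable_iff_integrableOn_Ioo_of_le hle] at h1
    exact h1.congr_fun (fun u hu => (heq u hu).symm) measurableSet_Ioo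
  · rw [intervalIntegral.integral_of_le hle, integral_Ioc_eq_integral_Ioo,
      setIntegral_congr_fun measurableSet_Ioo heq, ← integral_Ioc_eq_integral_Ioo,
      ← intervalIntegral.integral_of_le hle]
    have hd : ∀ u ∈ uIcc (k : ℝ) ((k : ℝ) + 1), HasDerivAt (fun u : ℝ => -(DD k) / u) (DD k / u ^ 2) u := by
      intro u hu
      rw [uIcc_of_le hle] at hu
      have hu0 : u ≠ 0 := (hk0.trans_le hu.1).ne'
      have h2 := (hasDerivAt_inv hu0).const_mul (-(DD k))
      refine (h2.congr_deriv ?_)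
      field_simp
    rw [intervalIntegral.integral_eq_sub_of_hasDerivAt hd hc.intervalIntegrable]
    unfold aa
    field_simp
    ring

lemma FI_nat (n : ℕ) : FI ((n : ℝ) + 1) = ∑ k ∈ Finset.range n, aa (k + 1) := by
  unfold FI
  have h3 := intervalIntegral.sum_integral_adjacent_intervals (f := fun u : ℝ => DD ⌊u⌋₊ / u ^ 2)
    (μ := volume) (a := fun k : ℕ => (k : ℝ) + 1) (n := n) (fun k _ => by
      have := (dd_int (k + 1) (by omega)).1
      push_cast at this ⊢
      exact this)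
  simp only [Nat.cast_zero, zero_add] at h3
  rw [← h3]
  refine Finset.sum_congr rfl fun k _ => ?_
  have := (dd_int (k + 1) (by omega)).2
  push_cast at this ⊢
  exact this

/-- the normalization by `log² n` of the integral at the integers -/
lemma log_ratio : Tendsto (fun n : ℕ => Real.log ((n : ℝ) + 1) / Real.log n) atTop (𝓝 1) := by
  have h1 : Tendsto (fun n : ℕ => 1 + (1 / (n : ℝ)) / Real.log n) atTop (𝓝 1) := by
    have := (tendsto_one_div_atTop_nhds_zero_nat (𝕜 := ℝ)).div_atTop log_top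
    simpa using this.const_add 1
  refine tendsto_of_tendsto_of_tendsto_of_le_of_le' tendsto_const_nhds h1 ?_ ?_
  · filter_upwards [eventually_ge_atTop 2] with n hn
    have hl : 0 < Real.log n := Real.log_pos (by exact_mod_cast (show 1 < n by omega))
    rw [le_div_iff₀ hl, one_mul]
    apply Real.log_le_log
    · have : 0 < n := by omega
      exact_mod_cast this
    · linarith
  · filter_upwards [eventually_ge_atTop 2] with n hn
    have hn0 : (0 : ℝ) < n := by
      have : 0 < n := by omega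
      exact_mod_cast this
    have hl : 0 < Real.log n := Real.log_pos (by exact_mod_cast (show 1 < n by omega))
    rw [div_le_iff₀ hl, add_mul, one_mul, div_mul_cancel₀ _ hl.ne']
    have h2 : Real.log ((n : ℝ) + 1) = Real.log n + Real.log (1 + 1 / n) := by
      rw [← Real.log_mul hn0.ne' (by positivity)]
      congr 1
      field_simp
    rw [h2]
    have := Real.log_le_sub_one_of_pos (show (0:ℝ) < 1 + 1 / n by positivity)
    linarith

/-- Franel's sums against the integral -/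
lemma compare : Tendsto (fun n : ℕ => BB n / FI ((n : ℝ) + 1)) atTop (𝓝 (Real.pi ^ 2 / 3)) := by
  have hg : 0 ≤ fun k : ℕ => aa (k + 1) := fun k => (aa_pos (by omega)).le
  have hFI : Tendsto (fun n : ℕ => ∑ k ∈ Finset.range n, aa (k + 1)) atTop atTop := by
    have h1 : Tendsto (fun n : ℕ => FI ((n : ℝ) + 1)) atTop atTop := by
      have ht : Tendsto (fun n : ℕ => (n : ℝ) + 1) atTop atTop :=
        tendsto_atTop_add_const_right _ _ tendsto_natCast_atTop_atTop
      have hl2 : Tendsto (fun x : ℝ => Real.log x ^ 2) atTop atTop :=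
        (tendsto_pow_atTop (by norm_num)).comp Real.tendsto_log_atTop
      have h2 : Tendsto FI atTop atTop := by
        by_cases hZ : ZC
        · have hS := SH_pos hZ
          have h3 := mu3_pos
          have h4 := (lim_yes hZ).pos_mul_atTop (by positivity) hl2
          refine h4.congr' ?_
          filter_upwards [hl2.eventually_gt_atTop 0] with x hx
          exact div_mul_cancel₀ _ hx.ne'
        · have h4 := (lim_no hZ).atTop_mul_atTop₀ hl2
          refine h4.congr' ?_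
          filter_upwards [hl2.eventually_gt_atTop 0] with x hx
          exact div_mul_cancel₀ _ hx.ne'
      exact h2.comp ht
    exact h1.congr fun n => FI_nat n
  have hf : (fun k : ℕ => Fr (k + 1) - Real.pi ^ 2 / 3 * aa (k + 1)) =o[atTop] fun k : ℕ => aa (k + 1) := by
    rw [Asymptotics.isLittleO_iff_tendsto' (Eventually.of_forall fun k h => absurd h (aa_pos (by omega)).ne')]
    have h1 : Tendsto (fun m : ℕ => (m : ℝ) * (m + 1) / ((farey m).card : ℝ)) atTop (𝓝 (Real.pi ^ 2 / 3)) := by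
      have h2 : Tendsto (fun m : ℕ => 1 + 1 / (m : ℝ)) atTop (𝓝 1) := by
        simpa using (tendsto_one_div_atTop_nhds_zero_nat (𝕜 := ℝ)).const_add 1
      have h3 := h2.mul card_ratio
      rw [one_mul] at h3
      refine h3.congr' ?_
      filter_upwards [eventually_ge_atTop 1] with m hm
      have : (m : ℝ) ≠ 0 := by exact_mod_cast (show m ≠ 0 by omega)
      field_simp
    have h4 : Tendsto (fun m : ℕ => (m : ℝ) * (m + 1) / ((farey m).card : ℝ) - Real.pi ^ 2 / 3 -
        1 / 3 * ((m : ℝ) * (m + 1) / ((farey m).card : ℝ)) / DD m) atTop (𝓝 0) := by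
      have h5 := (h1.const_mul (1 / 3)).div_atTop DD_infty
      have h6 := (h1.sub_const (Real.pi ^ 2 / 3)).sub h5
      simpa using h6
    have h7 := h4.comp (tendsto_add_atTop_nat 1)
    refine h7.congr fun k => ?_
    simp only [Function.comp]
    have hm : 1 ≤ k + 1 := by omega
    rw [Fr_eq hm]
    unfold aa
    have h8 := DD_pos hm
    have h9 := card_pos hm
    have h10 : (0 : ℝ) < ((k + 1 : ℕ) : ℝ) := by exact_mod_cast hm
    field_simp
    ring
  have hs := hf.sum_range hg hFI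
  have hs2 := hs.tendsto_div_nhds_zero
  have h1 : Tendsto (fun n : ℕ => (∑ k ∈ Finset.range n, (Fr (k + 1) - Real.pi ^ 2 / 3 * aa (k + 1))) /
      (∑ k ∈ Finset.range n, aa (k + 1)) + Real.pi ^ 2 / 3) atTop (𝓝 (Real.pi ^ 2 / 3)) := by
    simpa using hs2.add_const (Real.pi ^ 2 / 3)
  refine h1.congr' ?_
  filter_upwards [hFI.eventually_gt_atTop 0] with n hn
  have e : BB n = ∑ k ∈ Finset.range n, Fr (k + 1) := by
    have e : ∀ (f : ℕ → ℝ) (m : ℕ), ∑ Y ∈ Finset.Icc 1 m, f Y = ∑ k ∈ Finset.range m, f (k + 1) := by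
      intro f m
      induction m with
      | zero => simp
      | succ m ih => rw [Finset.sum_Icc_succ_top (by omega), Finset.sum_range_succ, ih]
    exact e _ n
  rw [FI_nat, e, Finset.sum_sub_distrib, ← Finset.mul_sum]
  field_simp
  ring

theorem BB_lim (hZ : ZC) : Tendsto (fun n : ℕ => BB n / Real.log n ^ 2) atTop (𝓝 κ) := by
  have ht : Tendsto (fun n : ℕ => (n : ℝ) + 1) atTop atTop :=
    tendsto_atTop_add_const_right _ _ tendsto_natCast_atTop_atTop
  have h1 := (lim_yes hZ).comp ht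
  have h2 := (compare.mul h1).mul (log_ratio.pow 2)
  have h3 : Real.pi ^ 2 / 3 * (SH * mu3 / 24) * 1 ^ 2 = κ := by
    unfold κ
    ring
  rw [h3] at h2
  refine h2.congr' ?_
  have h4 : ∀ᶠ n : ℕ in atTop, 0 < FI ((n : ℝ) + 1) := by
    filter_upwards [eventually_ge_atTop 1] with n hn
    rw [FI_nat]
    exact Finset.sum_pos (fun k _ => aa_pos (by omega)) ⟨0, Finset.mem_range.2 (by omega)⟩
  filter_upwards [h4, log_top.eventually_gt_atTop 0, (Real.tendsto_log_atTop.comp ht).eventually_gt_atTop 0]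
    with n h5 h6 h7
  simp only [Function.comp] at h7 ⊢
  field_simp

theorem BB_top (hZ : ¬ ZC) : Tendsto (fun n : ℕ => BB n / Real.log n ^ 2) atTop atTop := by
  have ht : Tendsto (fun n : ℕ => (n : ℝ) + 1) atTop atTop :=
    tendsto_atTop_add_const_right _ _ tendsto_natCast_atTop_atTop
  have h1 := (lim_no hZ).comp ht
  have h2 := (compare.pos_mul_atTop (by positivity) h1).atTop_mul_pos (by norm_num) (log_ratio.pow 2)
  refine h2.congr' ?_
  have h4 : ∀ᶠ n : ℕ in atTop, 0 < FI ((n : ℝ) + 1) := by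
    filter_upwards [eventually_ge_atTop 1] with n hn
    rw [FI_nat]
    exact Finset.sum_pos (fun k _ => aa_pos (by omega)) ⟨0, Finset.mem_range.2 (by omega)⟩
  filter_upwards [h4, log_top.eventually_gt_atTop 0, (Real.tendsto_log_atTop.comp ht).eventually_gt_atTop 0]
    with n h5 h6 h7
  simp only [Function.comp] at h7 ⊢
  field_simp

lemma icc_range (f : ℕ → ℝ) (m : ℕ) : ∑ Y ∈ Finset.Icc 1 m, f Y = ∑ k ∈ Finset.range m, f (k + 1) := by
  induction m with
  | zero => simp
  | succ m ih => rw [Finset.sum_Icc_succ_top (by omega), Finset.sum_range_succ, ih]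

/-- a lower bound for the partial sums of a sequence `≥ C log m / m` -/
lemma sum_low {F : ℕ → ℝ} {C : ℝ} (hC : 0 ≤ C) (hF : ∀ m, 0 ≤ F m) {m0 : ℕ} (hm0 : 1 ≤ m0)
    (h : ∀ m, m0 ≤ m → C * (Real.log m / m) ≤ F m) :
    ∃ K : ℝ, ∀ n : ℕ, m0 ≤ n → C / 2 * Real.log n ^ 2 - K ≤ ∑ m ∈ Finset.Icc 1 n, F m := by
  refine ⟨C / 2 * Real.log m0 ^ 2 + C / 2 * (∑' m : ℕ, 1 / (m : ℝ) ^ 2) + F 0, ?_⟩
  have key : ∀ n : ℕ, m0 ≤ n → C / 2 * Real.log n ^ 2 - C / 2 * Real.log m0 ^ 2 -
      C / 2 * ∑ m ∈ Finset.range n, 1 / (m : ℝ) ^ 2 ≤ ∑ m ∈ Finset.range n, F m := by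
    intro n hn
    induction n, hn using Nat.le_induction with
    | base =>
      have h1 : 0 ≤ ∑ m ∈ Finset.range m0, F m := Finset.sum_nonneg fun m _ => hF m
      have h2 : 0 ≤ C / 2 * ∑ m ∈ Finset.range m0, 1 / (m : ℝ) ^ 2 := by positivity
      linarith
    | succ n hn ih =>
      rw [Finset.sum_range_succ, Finset.sum_range_succ]
      have hn0 : (0 : ℝ) < n := by
        have : 0 < n := by omega
        exact_mod_cast this
      have h1 := h n hn
      obtain ⟨Δ, hΔ⟩ : ∃ Δ : ℝ, Δ = Real.log (1 + 1 / (n : ℝ)) := ⟨_, rfl⟩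
      have h2 : Real.log ((n + 1 : ℕ) : ℝ) = Real.log n + Δ := by
        rw [hΔ, ← Real.log_mul hn0.ne' (by positivity)]
        congr 1
        push_cast
        field_simp
      have h3 : Δ ≤ 1 / n := by
        have := Real.log_le_sub_one_of_pos (show (0:ℝ) < 1 + 1 / n by positivity)
        rw [hΔ]
        linarith
      have h4 : 0 ≤ Δ := by
        rw [hΔ]
        apply Real.log_nonneg
        have : (0:ℝ) ≤ 1 / n := by positivity
        linarith
      have hl0 : 0 ≤ Real.log (n : ℝ) := Real.log_natCast_nonneg n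
      have h5 : Real.log ((n + 1 : ℕ) : ℝ) ^ 2 ≤ Real.log n ^ 2 + 2 * (Real.log n / n) + 1 / (n : ℝ) ^ 2 := by
        have h6 : Δ ^ 2 ≤ (1 / (n : ℝ)) ^ 2 := by gcongr
        have h7 : Real.log (n : ℝ) * Δ ≤ Real.log n * (1 / n) := by gcongr
        have h8 : (1 / (n : ℝ)) ^ 2 = 1 / (n : ℝ) ^ 2 := by rw [div_pow, one_pow]
        rw [h2, ← h8]
        have h9 : Real.log (n : ℝ) * (1 / n) = Real.log n / n := by ring
        nlinarith
      have h10 := mul_le_mul_of_nonneg_left h5 (show 0 ≤ C / 2 by linarith)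
      linarith
  intro n hn
  have h1 := key n hn
  have h2 : ∑ m ∈ Finset.range n, 1 / (m : ℝ) ^ 2 ≤ ∑' m : ℕ, 1 / (m : ℝ) ^ 2 :=
    Z2_summable.sum_le_tsum _ fun m _ => by positivity
  have h3 : C / 2 * ∑ m ∈ Finset.range n, 1 / (m : ℝ) ^ 2 ≤ C / 2 * ∑' m : ℕ, 1 / (m : ℝ) ^ 2 := by gcongr
  have h4 : ∑ m ∈ Finset.range n, F m ≤ ∑ m ∈ Finset.Icc 1 n, F m + F 0 := by
    rw [icc_range, ← Finset.sum_range_succ', Finset.sum_range_succ]
    have := hF n
    linarith
  linarith

/-- under the weak Mertens hypothesis Franel's sum is small for arbitrarily large orders -/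
theorem QQ_freq (hZ : ZC) {η : ℝ} (hη : 0 < η) : ∃ᶠ n : ℕ in atTop, QQ n ≤ 2 * κ + η := by
  intro hcon
  obtain ⟨m1, hm1⟩ := eventually_atTop.1 hcon
  have hκ := κ_pos hZ
  obtain ⟨K, hK⟩ := sum_low (F := Fr) (C := 2 * κ + η) (by linarith) Fr_nonneg (m0 := max m1 2) (by omega) (by
    intro m hm
    have h1 := hm1 m (by omega)
    push Not at h1
    have hn0 : (0 : ℝ) < m := by
      have : 0 < m := by omega
      exact_mod_cast this
    have hl : 0 < Real.log m := Real.log_pos (by exact_mod_cast (show 1 < m by omega))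
    unfold QQ at h1
    rw [lt_div_iff₀ hl] at h1
    rw [mul_div_assoc', div_le_iff₀ hn0]
    linarith)
  have h1 := BB_lim hZ
  have h2 : Tendsto (fun n : ℕ => (2 * κ + η) / 2 - K / Real.log n ^ 2) atTop (𝓝 ((2 * κ + η) / 2)) := by
    have hl2 : Tendsto (fun n : ℕ => Real.log (n : ℝ) ^ 2) atTop atTop :=
      (tendsto_pow_atTop (by norm_num)).comp log_top
    have := (tendsto_const_nhds (x := K)).div_atTop hl2
    simpa using this.const_sub ((2 * κ + η) / 2)
  have h3 : (2 * κ + η) / 2 ≤ κ := by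
    refine le_of_tendsto_of_tendsto h2 h1 ?_
    filter_upwards [eventually_ge_atTop (max m1 2), log_top.eventually_gt_atTop 0] with n hn hl
    have h4 := hK n hn
    unfold BB
    rw [le_div_iff₀ (by positivity), sub_mul, div_mul_cancel₀ _ (by positivity)]
    exact h4
  linarith

theorem ZC_of_QQ {C : ℝ} (h : ∃ᶠ n : ℕ in atTop, QQ n ≤ C) : ZC := by
  by_contra hZ
  have h1 := (QQ_top hZ).eventually_gt_atTop C
  exact h (h1.mono fun n hn => not_le.2 hn)

theorem ZC_of_BB {C : ℝ} (h : ∃ᶠ n : ℕ in atTop, BB n ≤ C * Real.log n ^ 2) : ZC := by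
  by_contra hZ
  have h1 := (BB_top hZ).eventually_gt_atTop C
  refine h ?_
  filter_upwards [h1, log_top.eventually_gt_atTop 0] with n h2 h3
  rw [lt_div_iff₀ (by positivity)] at h2
  exact not_le.2 h2

theorem BB_bound (hZ : ZC) : ∃ C : ℝ, ∀ n : ℕ, 2 ≤ n → BB n ≤ C * Real.log n ^ 2 := by
  obtain ⟨N, hN⟩ := eventually_atTop.1 ((BB_lim hZ).eventually (gt_mem_nhds (lt_add_one κ)))
  have hκ := κ_pos hZ
  have hl2 : 0 < Real.log 2 := Real.log_pos (by norm_num)
  refine ⟨(κ + 1) + BB (max N 2) / Real.log 2 ^ 2, fun n hn => ?_⟩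
  have hmono : Monotone BB := by
    intro a b hab
    unfold BB
    exact Finset.sum_le_sum_of_subset_of_nonneg (Finset.Icc_subset_Icc_right hab) fun m _ _ => Fr_nonneg m
  have h0 : 0 ≤ BB (max N 2) := Finset.sum_nonneg fun m _ => Fr_nonneg m
  have hl : Real.log 2 ≤ Real.log n := Real.log_le_log (by norm_num) (by exact_mod_cast hn)
  have hln : 0 < Real.log (n : ℝ) := by linarith
  rcases le_or_gt N n with h | h
  · have h1 := hN n h
    rw [div_lt_iff₀ (by positivity)] at h1
    have h2 : 0 ≤ BB (max N 2) / Real.log 2 ^ 2 * Real.log n ^ 2 := by positivity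
    nlinarith
  · have h1 : BB n ≤ BB (max N 2) := hmono (by omega)
    have h2 : BB (max N 2) ≤ BB (max N 2) / Real.log 2 ^ 2 * Real.log n ^ 2 := by
      rw [div_mul_eq_mul_div, le_div_iff₀ (by positivity)]
      gcongr
    have h3 : 0 ≤ (κ + 1) * Real.log n ^ 2 := by positivity
    nlinarith

/-- an unconditional lower bound -/
theorem QQ_uncond : ∃ c : ℝ, 0 < c ∧ ∀ᶠ n : ℕ in atTop, c ≤ QQ n := by
  by_cases hZ : ZC
  · have hκ := κ_pos hZ
    refine ⟨κ / 2, by positivity, ?_⟩
    have h1 := QQ_liminf hZ (η := κ / 2) (by positivity)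
    filter_upwards [h1] with n hn
    linarith
  · exact ⟨1, one_pos, (QQ_top hZ).eventually_ge_atTop 1⟩

end

end Pool.Agent.U463.FS
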